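import Mathlib
import Pool.Agent.Q145.LS.Stm
import Pool.Agent.Helper602.MK.J3

/-!
# Project LS: Brun-Titchmarsh
-/

set_option autoImplicit false
set_option linter.unusedSectionVars false

namespace Pool.Agent.Q145.LS

open Finset Pool.Agent.Q145.SZ

/-- JOB BT -/
theorem t_BT : S_BT := by
  classical
  obtain ⟨C, hC, hBT⟩ := Pool.Agent.Helper602.MK.BTLib.brun_titchmarsh
  refine ⟨12 * C, 4, by linarith, fun X q hX hq hqX r => ?_⟩
  have hX0 : (4 : ℝ) ≤ X := by exact_mod_cast hX
  have hXp : (0 : ℝ) < X := by linarith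
  have hq0 : (0 : ℝ) < q := by exact_mod_cast hq
  have hφ : (0 : ℝ) < Nat.totient q := by exact_mod_cast Nat.totient_pos.2 hq
  have hqX' : q ≤ X := le_trans (by nlinarith) hqX
  have hqXr : (q : ℝ) ≤ X := by exact_mod_cast hqX'
  have hqXs : (q : ℝ) ^ 2 ≤ X := by exact_mod_cast hqX
  set N : ℕ := 2 * X / q + 1 with hN
  have hN2 : 2 ≤ N := by
    have : 1 ≤ 2 * X / q := (Nat.one_le_div_iff hq).2 (by omega)
    omega
  have h1 := hBT (r % q) q N hq hN2
  -- the logarithm
  have hlogX : 0 < Real.log X := Real.log_pos (by linarith)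
  have hlog2 : Real.log (2 * X) ≤ 2 * Real.log X := by
    rw [← Real.log_rpow hXp]
    refine Real.log_le_log (by linarith) ?_
    norm_num
    nlinarith
  have hNle : (N : ℝ) ≤ 3 * X / q := by
    have h2 : ((2 * X / q : ℕ) : ℝ) ≤ ((2 * X : ℕ) : ℝ) / q := Nat.cast_div_le
    have h3 : (1 : ℝ) ≤ X / q := by
      rw [le_div_iff₀ hq0, one_mul]
      exact hqXr
    rw [hN]
    push_cast at h2 ⊢
    have h4 : (3 : ℝ) * X / q = 2 * X / q + X / q := by ring
    rw [h4]
    linarith
  have hNge : (X : ℝ) / q ≤ N := by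
    have h2 : (2 * X : ℕ) < (2 * X / q + 1) * q := by
      have e1 := Nat.div_add_mod (2 * X) q
      have e2 := Nat.mod_lt (2 * X) hq
      have e3 : (2 * X / q + 1) * q = q * (2 * X / q) + q := by ring
      omega
    have h3 : ((2 * X : ℕ) : ℝ) < ((2 * X / q + 1) * q : ℕ) := by exact_mod_cast h2
    rw [div_le_iff₀ hq0, hN]
    push_cast at h3 ⊢
    nlinarith
  have hlogN : Real.log X / 2 ≤ Real.log N := by
    have h2 : Real.sqrt X ≤ X / q := by
      rw [le_div_iff₀ hq0]
      have h3 : (q : ℝ) ≤ Real.sqrt X := Real.le_sqrt_of_sq_le hqXs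
      calc Real.sqrt X * q ≤ Real.sqrt X * Real.sqrt X :=
            mul_le_mul_of_nonneg_left h3 (Real.sqrt_nonneg _)
        _ = X := Real.mul_self_sqrt hXp.le
    rw [← Real.log_sqrt hXp.le]
    exact Real.log_le_log (Real.sqrt_pos.2 hXp) (h2.trans hNge)
  have hlogN0 : 0 < Real.log N := lt_of_lt_of_le (by linarith) hlogN
  -- the sum and the count
  have h2 : ∑ n ∈ (Ioc X (2 * X)).filter (fun n : ℕ => n ≡ r [MOD q]), wt n ≤
      Real.log (2 * X) * (((Finset.range N).filter (fun k => (r % q + k * q).Prime)).card : ℝ) := by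
    have h3 : ∑ n ∈ (Ioc X (2 * X)).filter (fun n : ℕ => n ≡ r [MOD q]), wt n ≤
        ∑ n ∈ ((Ioc X (2 * X)).filter (fun n : ℕ => n ≡ r [MOD q])).filter Nat.Prime,
          Real.log (2 * X) := by
      rw [Finset.sum_filter (p := Nat.Prime)]
      refine Finset.sum_le_sum fun n hn => ?_
      rw [mem_filter, mem_Ioc] at hn
      unfold wt
      split_ifs with h
      · refine Real.log_le_log ?_ ?_
        · exact_mod_cast h.pos
        · exact_mod_cast hn.1.2
      · exact le_rfl
    refine h3.trans ?_
    rw [Finset.sum_const, nsmul_eq_mul, mul_comm]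
    refine mul_le_mul_of_nonneg_left ?_ (Real.log_nonneg (by linarith))
    have h4 : (((Ioc X (2 * X)).filter (fun n : ℕ => n ≡ r [MOD q])).filter Nat.Prime).card ≤
        ((Finset.range N).filter (fun k => (r % q + k * q).Prime)).card := by
      refine Finset.card_le_card_of_injOn (fun n => n / q) ?_ ?_
      · intro n hn
        rw [mem_coe, mem_filter, mem_filter, mem_Ioc] at hn
        rw [mem_coe, mem_filter, mem_range]
        have h5 : n % q = r % q := hn.1.2
        have h6 : r % q + n / q * q = n := by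
          rw [← h5, mul_comm]
          exact Nat.mod_add_div n q
        refine ⟨?_, ?_⟩
        · have : n / q ≤ 2 * X / q := Nat.div_le_div_right hn.1.1.2
          change n / q < N
          omega
        · change (r % q + n / q * q).Prime
          rw [h6]
          exact hn.2
      · intro n hn m hm h
        rw [mem_coe, mem_filter, mem_filter, mem_Ioc] at hn hm
        have h5 : n % q = r % q := hn.1.2
        have h6 : m % q = r % q := hm.1.2
        have h7 : n / q = m / q := h
        rw [← Nat.mod_add_div n q, ← Nat.mod_add_div m q, h5, h6, h7]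
    exact_mod_cast h4
  refine h2.trans ?_
  have hlog2p : 0 ≤ Real.log (2 * X) := Real.log_nonneg (by linarith)
  calc Real.log (2 * X) * (((Finset.range N).filter (fun k => (r % q + k * q).Prime)).card : ℝ) ≤
        Real.log (2 * X) * (C * ((q : ℝ) / (Nat.totient q : ℝ)) * N / Real.log N) :=
        mul_le_mul_of_nonneg_left h1 hlog2p
    _ ≤ (2 * Real.log X) * (C * ((q : ℝ) / (Nat.totient q : ℝ)) * (3 * X / q) /
        (Real.log X / 2)) := by
        refine mul_le_mul hlog2 ?_ (by positivity) (by positivity)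
        refine div_le_div₀ (by positivity) ?_ (by positivity) hlogN
        exact mul_le_mul_of_nonneg_left hNle (by positivity)
    _ = 12 * C * X / Nat.totient q := by
        field_simp
        ring

end Pool.Agent.Q145.LS
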