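import Mathlib
import Pool.Agent.Q145.LS.Stm

/-!
# Project LS: invariance under units
-/

set_option autoImplicit false
set_option linter.unusedSectionVars false

namespace Pool.Agent.Q162.LS

open Finset Pool.Agent.Q145.SZ Pool.Agent.Q145.LS

section

variable {W : ℕ} [NeZero W] {K : ℕ}

theorem mem_GS (u b : Fin K → ZMod W) (x : ZMod W) :
    x ∈ GS u b ↔ IsUnit x ∧ ∀ i, IsUnit (u i * x + b i) := by
  classical
  unfold GS
  rw [mem_filter]
  exact ⟨fun h => h.2, fun h => ⟨mem_univ _, h⟩⟩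

theorem mem_uni (x : ZMod W) : x ∈ uni W ↔ IsUnit x := by
  classical
  unfold uni
  rw [mem_filter]
  exact ⟨fun h => h.2, fun h => ⟨mem_univ _, h⟩⟩

theorem GS_sub (u b : Fin K → ZMod W) : GS u b ⊆ uni W := fun x hx =>
  (mem_uni x).2 ((mem_GS u b x).1 hx).1

theorem card_uni (W : ℕ) [NeZero W] : (uni W).card = Nat.totient W := by
  classical
  rw [← ZMod.card_units_eq_totient W, ← Finset.card_univ (α := (ZMod W)ˣ)]
  symm
  refine Finset.card_bij (fun t _ => (t : ZMod W)) (fun t _ => (mem_uni _).2 t.isUnit)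
    (fun t _ s _ h => Units.ext h) fun x hx => ?_
  obtain ⟨t, ht⟩ := (mem_uni x).1 hx
  exact ⟨t, mem_univ _, ht⟩

/-- multiplication of the constants by a unit -/
def mt (t : (ZMod W)ˣ) : (Fin K → ZMod W) ≃ (Fin K → ZMod W) :=
  Equiv.piCongrRight fun _ => Units.mulLeft t

theorem mt_apply (t : (ZMod W)ˣ) (b : Fin K → ZMod W) (i : Fin K) :
    mt t b i = (t : ZMod W) * b i := rfl

theorem mem_GS_mt (u b : Fin K → ZMod W) (t : (ZMod W)ˣ) (x : ZMod W) :
    (t : ZMod W) * x ∈ GS u (mt t b) ↔ x ∈ GS u b := by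
  rw [mem_GS, mem_GS]
  refine and_congr (t.isUnit_units_mul x) ?_
  refine forall_congr' fun i => ?_
  have h1 : u i * ((t : ZMod W) * x) + mt t b i = (t : ZMod W) * (u i * x + b i) := by
    rw [mt_apply]
    ring
  rw [h1]
  exact t.isUnit_units_mul _

theorem card_GS_mt (u b : Fin K → ZMod W) (t : (ZMod W)ˣ) :
    (GS u (mt t b)).card = (GS u b).card := by
  symm
  refine Finset.card_bij (fun x _ => (t : ZMod W) * x) (fun x hx => (mem_GS_mt u b t x).2 hx)
    (fun x _ y _ h => t.isUnit.mul_left_cancel h) fun y hy => ?_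
  refine ⟨((t⁻¹ : (ZMod W)ˣ) : ZMod W) * y, ?_, ?_⟩
  · rw [← mem_GS_mt u b t, ← mul_assoc, Units.mul_inv, one_mul]
    exact hy
  · rw [← mul_assoc, Units.mul_inv, one_mul]

theorem w1s_mt (u b : Fin K → ZMod W) (t : (ZMod W)ˣ) (n : ZMod W) :
    w1s u ((t : ZMod W) * n) (mt t b) = w1s u n b := by
  unfold w1s
  rw [card_GS_mt]
  by_cases h : n ∈ GS u b
  · rw [if_pos h, if_pos ((mem_GS_mt u b t n).2 h)]
  · rw [if_neg h, if_neg (fun h' => h ((mem_GS_mt u b t n).1 h'))]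

theorem w2s_mt (u b : Fin K → ZMod W) (t : (ZMod W)ˣ) (n m : ZMod W) :
    w2s u ((t : ZMod W) * n) ((t : ZMod W) * m) (mt t b) = w2s u n m b := by
  unfold w2s
  rw [card_GS_mt]
  by_cases h : n ∈ GS u b ∧ m ∈ GS u b
  · rw [if_pos h, if_pos ⟨(mem_GS_mt u b t n).2 h.1, (mem_GS_mt u b t m).2 h.2⟩]
  · rw [if_neg h, if_neg (fun h' => h ⟨(mem_GS_mt u b t n).1 h'.1, (mem_GS_mt u b t m).1 h'.2⟩)]

theorem mem_AdW (u b : Fin K → ZMod W) : b ∈ AdW u ↔ (GS u b).Nonempty := by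
  classical
  unfold AdW
  rw [mem_filter]
  exact ⟨fun h => h.2, fun h => ⟨mem_univ _, h⟩⟩

theorem sum_w1s (u b : Fin K → ZMod W) :
    ∑ n ∈ uni W, w1s u n b = if b ∈ AdW u then 1 else 0 := by
  classical
  have h1 : ∑ n ∈ uni W, w1s u n b = ∑ n ∈ GS u b, ((GS u b).card : ℝ)⁻¹ := by
    rw [← Finset.sum_subset (GS_sub u b)]
    · refine Finset.sum_congr rfl fun n hn => ?_
      unfold w1s
      rw [if_pos hn]
    · intro n _ hn
      unfold w1s
      rw [if_neg hn]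
  rw [h1, Finset.sum_const, nsmul_eq_mul]
  by_cases h : (GS u b).Nonempty
  · rw [if_pos ((mem_AdW u b).2 h)]
    have h2 : ((GS u b).card : ℝ) ≠ 0 := by exact_mod_cast (Finset.card_pos.2 h).ne'
    exact mul_inv_cancel₀ h2
  · rw [if_neg (fun h' => h ((mem_AdW u b).1 h')), Finset.not_nonempty_iff_eq_empty.1 h]
    simp

theorem sum_w2s (u b : Fin K → ZMod W) :
    ∑ n ∈ uni W, ∑ m ∈ uni W, w2s u n m b = if b ∈ AdW u then 1 else 0 := by
  classical
  have h0 : ∀ n m, w2s u n m b = w1s u n b * w1s u m b := by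
    intro n m
    unfold w2s w1s
    by_cases h1 : n ∈ GS u b
    · by_cases h2 : m ∈ GS u b
      · rw [if_pos ⟨h1, h2⟩, if_pos h1, if_pos h2, sq, mul_inv]
      · rw [if_neg (fun h => h2 h.2), if_neg h2, mul_zero]
    · rw [if_neg (fun h => h1 h.1), if_neg h1, zero_mul]
  have h1 : ∑ n ∈ uni W, ∑ m ∈ uni W, w2s u n m b =
      (∑ n ∈ uni W, w1s u n b) * ∑ m ∈ uni W, w1s u m b := by
    rw [Finset.sum_mul_sum]
    exact Finset.sum_congr rfl fun n _ => Finset.sum_congr rfl fun m _ => h0 n m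
  rw [h1, sum_w1s]
  by_cases h : b ∈ AdW u
  · rw [if_pos h, one_mul]
  · rw [if_neg h, zero_mul]

theorem sum_ind (u : Fin K → ZMod W) :
    ∑ b : Fin K → ZMod W, (if b ∈ AdW u then (1 : ℝ) else 0) = (AdW u).card := by
  classical
  rw [Finset.sum_ite_mem, Finset.univ_inter, Finset.sum_const, nsmul_eq_mul, mul_one]

theorem w2s_le (u b : Fin K → ZMod W) (n m : ZMod W) :
    w2s u n m b ≤ if b ∈ AdW u then 1 else 0 := by
  classical
  unfold w2s
  by_cases h : n ∈ GS u b ∧ m ∈ GS u b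
  · have h1 : (GS u b).Nonempty := ⟨n, h.1⟩
    rw [if_pos h, if_pos ((mem_AdW u b).2 h1)]
    have h2 : (1 : ℝ) ≤ (GS u b).card := by exact_mod_cast Finset.card_pos.2 h1
    exact inv_le_one_of_one_le₀ (one_le_pow₀ h2)
  · rw [if_neg h]
    split_ifs
    · exact zero_le_one
    · exact le_rfl

end

end Pool.Agent.Q162.LS

namespace Pool.Agent.Q145.LS

open Finset Pool.Agent.Q145.SZ Pool.Agent.Q162.LS

/-- JOB UNI -/
theorem t_UNI : S_UNI := by
  classical
  intro W _ K u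
  have hinv : ∀ (t : (ZMod W)ˣ) (n : ZMod W), ∑ b : Fin K → ZMod W, w1s u ((t : ZMod W) * n) b =
      ∑ b : Fin K → ZMod W, w1s u n b := by
    intro t n
    exact (Fintype.sum_equiv (mt t) _ _ fun b => (w1s_mt u b t n).symm).symm
  have hphi : (0 : ℝ) < Nat.totient W := by
    exact_mod_cast Nat.totient_pos.2 (Nat.pos_of_ne_zero (NeZero.ne W))
  refine ⟨fun n => ?_, fun t n m => ?_, fun n m h => ?_, ?_, fun n m => ?_⟩
  · by_cases hn : n ∈ uni W
    · rw [if_pos hn, eq_div_iff hphi.ne']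
      have h1 : ∀ x ∈ uni W, ∑ b : Fin K → ZMod W, w1s u x b = ∑ b : Fin K → ZMod W, w1s u n b := by
        intro x hx
        obtain ⟨s, rfl⟩ := (mem_uni x).1 hx
        obtain ⟨t, rfl⟩ := (mem_uni n).1 hn
        have h2 := hinv s 1
        have h3 := hinv t 1
        rw [mul_one] at h2 h3
        rw [h2, h3]
      have h2 : ∑ x ∈ uni W, ∑ b : Fin K → ZMod W, w1s u x b =
          (∑ b : Fin K → ZMod W, w1s u n b) * Nat.totient W := by
        rw [Finset.sum_congr rfl h1, Finset.sum_const, card_uni, nsmul_eq_mul, mul_comm]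
      rw [← h2, Finset.sum_comm, Finset.sum_congr rfl fun b _ => sum_w1s u b, sum_ind]
    · rw [if_neg hn]
      refine Finset.sum_eq_zero fun b _ => ?_
      unfold w1s
      rw [if_neg (fun h => hn (GS_sub u b h))]
  · exact (Fintype.sum_equiv (mt t) _ _ fun b => (w2s_mt u b t n m).symm).symm
  · refine Finset.sum_eq_zero fun b _ => ?_
    unfold w2s
    rw [if_neg]
    rintro ⟨h1, h2⟩
    rcases h with h | h
    · exact h (GS_sub u b h1)
    · exact h (GS_sub u b h2)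
  · have h1 : ∑ n ∈ uni W, ∑ m ∈ uni W, ∑ b : Fin K → ZMod W, w2s u n m b =
        ∑ b : Fin K → ZMod W, ∑ n ∈ uni W, ∑ m ∈ uni W, w2s u n m b := by
      rw [Finset.sum_congr rfl fun n _ => Finset.sum_comm, Finset.sum_comm]
    rw [h1, Finset.sum_congr rfl fun b _ => sum_w2s u b, sum_ind]
  · rw [← sum_ind]
    exact Finset.sum_le_sum fun b _ => w2s_le u b n m

end Pool.Agent.Q145.LS
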