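import Mathlib
import Pool.Agent.Q162.LS.UNI
import Pool.Agent.Q98.SZ.H1

/-!
# Project LS: primes in classes, mean squares
-/

set_option autoImplicit false
set_option linter.unusedSectionVars false

namespace Pool.Agent.Q162.LS

open Finset Pool.Agent.Q145.SZ Pool.Agent.Q145.LS
open Pool.Agent.Q98.SZ (DC_prim th_char parseval sum_char prim_sum one_class th_nonunit)

section

variable {W : ℕ} [NeZero W]

theorem uni_filter [DecidablePred fun a : ZMod W => IsUnit a] :
    univ.filter (fun a : ZMod W => IsUnit a) = uni W := by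
  ext a
  rw [mem_filter, mem_uni]
  exact ⟨fun h => h.2, fun h => ⟨mem_univ _, h⟩⟩

/-- the mean square over the classes (`n = X` is allowed) -/
theorem mean_sq2 {A X n F : ℕ} (hW : W ≤ X) (hF : W ≤ F) (hM : MSq A X F)
    (hn1 : X ≤ n) (hn2 : n ≤ 2 * X) :
    (Nat.totient W : ℝ) * ∑ a ∈ uni W,
      (Pool.Agent.Q98.SZ.th X n a - (X : ℝ) / Nat.totient W) ^ 2 ≤
        (X : ℝ) ^ 2 / Real.log X ^ A := by
  classical
  have hφ : (Nat.totient W : ℝ) ≠ 0 := by
    exact_mod_cast (Nat.totient_pos.2 (Nat.pos_of_ne_zero (NeZero.ne W))).ne'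
  have hφc : (Nat.totient W : ℂ) ≠ 0 := by exact_mod_cast hφ
  have h1 := (hM n (n + X) (by omega) (by omega) (by omega)).2
  refine le_trans ?_ ((prim_sum (X := X) (n := n) hF).trans h1)
  rw [← uni_filter, ← parseval]
  refine (sum_congr rfl fun χ _ => ?_).le
  congr 2
  rw [DC_prim (by omega) χ, ← th_char]
  have h2 : ∀ a ∈ univ.filter (fun a : ZMod W => IsUnit a),
      ((Pool.Agent.Q98.SZ.th X n a - (X : ℝ) / Nat.totient W : ℝ) : ℂ) * χ a =
      (Pool.Agent.Q98.SZ.th X n a : ℂ) * χ a - (X : ℂ) / (Nat.totient W : ℂ) * χ a := by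
    intro a _
    push_cast
    ring
  rw [sum_congr rfl h2, sum_sub_distrib, ← mul_sum, sum_char]
  congr 1
  by_cases h : χ = 1
  · rw [if_pos h, if_pos h, div_mul_cancel₀ _ hφc]
  · rw [if_neg h, if_neg h, mul_zero]

theorem th_eq (X : ℕ) (c : ZMod W) : th X c = Pool.Agent.Q98.SZ.th X X c := by
  unfold th Pool.Agent.Q98.SZ.th
  have h : 2 * X = X + X := by ring
  rw [h]

theorem sum_wt (X : ℕ) (hW : W ≤ X) : ∑ n ∈ Ioc X (2 * X), wt n = ∑ c ∈ uni W, th X c := by
  classical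
  have h1 : ∑ c ∈ uni W, th X c = ∑ c : ZMod W, th X c := by
    refine Finset.sum_subset (Finset.subset_univ _) fun c _ hc => ?_
    rw [mem_uni] at hc
    rw [th_eq]
    exact th_nonunit hW hc
  rw [h1]
  unfold th
  exact (sum_fiberwise (Ioc X (2 * X)) (fun u : ℕ => (u : ZMod W)) wt).symm

theorem mem_Us (n m β : ZMod W) : β ∈ Us n m ↔ IsUnit (n + β) ∧ IsUnit (m + β) := by
  classical
  unfold Us
  rw [mem_filter]
  exact ⟨fun h => h.2, fun h => ⟨mem_univ _, h⟩⟩

theorem sum_Us (N : ZMod W) (f : ZMod W → ℝ) :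
    ∑ β ∈ Us N N, f (N + β) = ∑ a ∈ uni W, f a := by
  classical
  refine Finset.sum_bij (fun β _ => N + β) (fun β hβ => ?_) (fun x _ y _ h => add_left_cancel h)
    (fun y hy => ?_) fun _ _ => rfl
  · rw [mem_Us] at hβ
    exact (mem_uni _).2 hβ.1
  · rw [mem_uni] at hy
    refine ⟨y - N, ?_, by ring⟩
    rw [mem_Us]
    have h : N + (y - N) = y := by ring
    rw [h]
    exact ⟨hy, hy⟩

theorem card_Us (N : ZMod W) : ((Us N N).card : ℝ) = Nat.totient W := by
  have h := sum_Us N (fun _ => 1)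
  rw [Finset.sum_const, Finset.sum_const, nsmul_eq_mul, nsmul_eq_mul, mul_one, mul_one,
    card_uni] at h
  exact h

end

end Pool.Agent.Q162.LS

namespace Pool.Agent.Q145.LS

open Finset Pool.Agent.Q145.SZ Pool.Agent.Q162.LS

/-- JOB EQ2 -/
theorem t_EQ2 : S_EQ2 := by
  classical
  intro A X F hX hM W _ hWF hWX
  have hW : 0 < W := Nat.pos_of_ne_zero (NeZero.ne W)
  have hWr : (0 : ℝ) < W := by exact_mod_cast hW
  have hXr : (3 : ℝ) ≤ X := by exact_mod_cast hX
  have hX0 : (0 : ℝ) < X := by linarith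
  have hφ : (0 : ℝ) < Nat.totient W := by exact_mod_cast Nat.totient_pos.2 hW
  have hL : 0 < Real.log X ^ A := pow_pos (Real.log_pos (by linarith)) A
  have h1 : ∑ c ∈ uni W, (th X c - (X : ℝ) / Nat.totient W) ^ 2 ≤
      (X : ℝ) ^ 2 / (Nat.totient W * Real.log X ^ A) := by
    have h2 := mean_sq2 (W := W) (n := X) (by omega) hWF hM le_rfl (by omega)
    rw [mul_comm, ← le_div_iff₀ hφ, div_div, mul_comm (Real.log X ^ A)] at h2
    refine le_trans (le_of_eq ?_) h2
    exact Finset.sum_congr rfl fun c _ => by rw [th_eq]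
  refine ⟨h1, fun N hN => ?_, ?_⟩
  · rw [mem_Ioc] at hN
    have h2 := mean_sq2 (W := W) (n := N) (by omega) hWF hM hN.1.le hN.2
    rw [mul_comm, ← le_div_iff₀ hφ, div_div, mul_comm (Real.log X ^ A)] at h2
    set x : ℝ := (X : ℝ) / Nat.totient W with hx
    have h3 : ∀ β ∈ Us (N : ZMod W) (N : ZMod W), (A1 X N β - vv W) ^ 2 ≤
        8 * ((W : ℝ) / X) ^ 2 * (Pool.Agent.Q98.SZ.th X N ((N : ZMod W) + β) - x) ^ 2 +
          8 * ((W : ℝ) / X) ^ 2 * vv W ^ 2 := by
      intro β hβ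
      have hu := ((mem_Us _ _ β).1 hβ).1
      have h4 := Pool.Agent.Q98.SZ.one_class (X := X) (n := N) hWX (by omega) β
      rw [if_pos hu, if_pos hu] at h4
      have h5 := pow_le_pow_left₀ (abs_nonneg _) h4 2
      rw [sq_abs] at h5
      refine h5.trans ?_
      set t : ℝ := |Pool.Agent.Q98.SZ.th X N ((N : ZMod W) + β) - (X : ℝ) / Nat.totient W|
      have h6 : (Pool.Agent.Q98.SZ.th X N ((N : ZMod W) + β) - x) ^ 2 = t ^ 2 := (sq_abs _).symm
      rw [h6]
      have h7 : 2 * (W : ℝ) / X = 2 * ((W : ℝ) / X) := by ring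
      rw [h7]
      nlinarith [sq_nonneg (2 * ((W : ℝ) / X) * t - 2 * ((W : ℝ) / X) * vv W)]
    refine (Finset.sum_le_sum h3).trans ?_
    rw [Finset.sum_add_distrib, ← Finset.mul_sum,
      sum_Us (N : ZMod W) (fun a => (Pool.Agent.Q98.SZ.th X N a - x) ^ 2), Finset.sum_const,
      nsmul_eq_mul, card_Us]
    have h4 : 8 * ((W : ℝ) / X) ^ 2 * ∑ a ∈ uni W, (Pool.Agent.Q98.SZ.th X N a - x) ^ 2 ≤
        8 * ((W : ℝ) / X) ^ 2 * ((X : ℝ) ^ 2 / (Nat.totient W * Real.log X ^ A)) :=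
      mul_le_mul_of_nonneg_left h2 (by positivity)
    refine (add_le_add_left h4 _).trans (le_of_eq ?_)
    unfold vv
    field_simp
  · rw [sum_wt (W := W) X (by omega)]
    have h2 : ∑ c ∈ uni W, th X c - X = ∑ c ∈ uni W, (th X c - (X : ℝ) / Nat.totient W) := by
      rw [Finset.sum_sub_distrib, Finset.sum_const, nsmul_eq_mul, card_uni]
      congr 1
      field_simp
    rw [h2]
    calc (∑ c ∈ uni W, (th X c - (X : ℝ) / Nat.totient W)) ^ 2 ≤
          (uni W).card * ∑ c ∈ uni W, (th X c - (X : ℝ) / Nat.totient W) ^ 2 :=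
          sq_sum_le_card_mul_sum_sq
      _ ≤ Nat.totient W * ((X : ℝ) ^ 2 / (Nat.totient W * Real.log X ^ A)) := by
          rw [card_uni]
          exact mul_le_mul_of_nonneg_left h1 hφ.le
      _ = (X : ℝ) ^ 2 / Real.log X ^ A := by
          field_simp

end Pool.Agent.Q145.LS
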