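import Mathlib
import Pool.Agent.Q145.LS.Stm

/-!
# Project LS: reduction to slope one
-/

set_option autoImplicit false
set_option linter.unusedSectionVars false

namespace Pool.Agent.Q162.LS

open Finset Pool.Agent.Q145.SZ Pool.Agent.Q145.LS

theorem fl_pos (X : ℕ) (a : ℤ) (h : 0 < a) (n : ℕ) : fl X a n = a.natAbs * n := by
  unfold fl
  rw [if_pos h]

theorem fl_neg (X : ℕ) (a : ℤ) (h : ¬ 0 < a) (n : ℕ) :
    fl X a n = a.natAbs * (3 * X + 1 - n) := by
  unfold fl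
  rw [if_neg h]

/-- as an integer -/
theorem fl_int (X : ℕ) (a : ℤ) (ha : a ≠ 0) (n : ℕ) (hn : n ∈ Ioc X (2 * X)) :
    (fl X a n : ℤ) = a * n + lo X a := by
  rw [mem_Ioc] at hn
  by_cases h : 0 < a
  · rw [fl_pos X a h]
    unfold lo
    rw [if_pos h]
    push_cast
    rw [abs_of_pos h]
    ring
  · rw [fl_neg X a h]
    unfold lo
    rw [if_neg h]
    have h1 : ((3 * X + 1 - n : ℕ) : ℤ) = 3 * X + 1 - n := by
      have : n ≤ 3 * X + 1 := by omega
      push_cast [Nat.cast_sub this]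
      ring
    rw [Nat.cast_mul, h1]
    push_cast
    rw [abs_of_neg (by omega)]
    ring

theorem fl_mem (X : ℕ) (a : ℤ) (ha : a ≠ 0) (n : ℕ) (hn : n ∈ Ioc X (2 * X)) :
    fl X a n ∈ Ioc (a.natAbs * X) (2 * (a.natAbs * X)) := by
  rw [mem_Ioc] at hn ⊢
  have h0 : 0 < a.natAbs := Int.natAbs_pos.2 ha
  have h1 : ∀ k, X < k → k ≤ 2 * X → a.natAbs * X < a.natAbs * k ∧
      a.natAbs * k ≤ 2 * (a.natAbs * X) := by
    intro k h2 h3
    refine ⟨Nat.mul_lt_mul_of_pos_left h2 h0, ?_⟩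
    calc a.natAbs * k ≤ a.natAbs * (2 * X) := Nat.mul_le_mul_left _ h3
      _ = 2 * (a.natAbs * X) := by ring
  by_cases h : 0 < a
  · rw [fl_pos X a h]
    exact h1 n hn.1 hn.2
  · rw [fl_neg X a h]
    exact h1 _ (by omega) (by omega)

theorem vl_lo (X : ℕ) (a : ℤ) (ha : a ≠ 0) (n : ℕ) (hn : n ∈ Ioc X (2 * X)) (s : ℕ) :
    vl a n (lo X a + s) = fl X a n + s := by
  unfold vl
  have h1 := fl_int X a ha n hn
  have h2 : a * (n : ℤ) + ((lo X a + s : ℕ) : ℤ) = ((fl X a n + s : ℕ) : ℤ) := by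
    push_cast
    rw [h1]
    ring
  rw [h2, Int.toNat_natCast]

theorem dst_fl (X : ℕ) (a : ℤ) (n m : ℕ) (hn : n ∈ Ioc X (2 * X))
    (hm : m ∈ Ioc X (2 * X)) : dst (fl X a n) (fl X a m) = a.natAbs * dst n m := by
  rw [mem_Ioc] at hn hm
  unfold dst
  by_cases h : 0 < a
  · rw [fl_pos X a h, fl_pos X a h, ← Nat.mul_sub, ← Nat.mul_sub, ← Nat.mul_add]
  · rw [fl_neg X a h, fl_neg X a h, ← Nat.mul_sub, ← Nat.mul_sub, ← Nat.mul_add]
    congr 1
    omega

section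

variable {W : ℕ} [NeZero W]

/-- the sum over a class -/
theorem sum_bcl (X : ℕ) (a : ℤ) (β : ZMod W) (f : ℕ → ℝ) :
    ∑ s ∈ bcl X a β, f s =
      ∑ s ∈ cls (a.natAbs * X) (β - (lo X a : ZMod W)), f (lo X a + s) := by
  classical
  symm
  unfold cls bcl bx
  refine Finset.sum_bij (fun s _ => lo X a + s) (fun s hs => ?_)
    (fun x _ y _ h => Nat.add_left_cancel h) (fun y hy => ?_) fun s _ => rfl
  · rw [mem_filter, mem_Icc] at hs
    rw [mem_filter, mem_Ioc]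
    refine ⟨⟨by omega, by omega⟩, ?_⟩
    push_cast
    rw [hs.2]
    ring
  · rw [mem_filter, mem_Ioc] at hy
    refine ⟨y - lo X a, ?_, by omega⟩
    rw [mem_filter, mem_Icc]
    refine ⟨⟨by omega, by omega⟩, ?_⟩
    rw [Nat.cast_sub (by omega), hy.2]

theorem card_bcl (X : ℕ) (a : ℤ) (β : ZMod W) :
    (bcl X a β).card = (cls (a.natAbs * X) (β - (lo X a : ZMod W))).card := by
  have h1 := sum_bcl X a β (fun _ => 1)
  rw [Finset.sum_const, Finset.sum_const, nsmul_eq_mul, nsmul_eq_mul, mul_one, mul_one] at h1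
  exact_mod_cast h1

theorem fl_zmod (X : ℕ) (a : ℤ) (ha : a ≠ 0) (n : ℕ) (hn : n ∈ Ioc X (2 * X)) :
    ((fl X a n : ℕ) : ZMod W) = (a : ZMod W) * n + (lo X a : ZMod W) := by
  have h := congrArg (Int.cast : ℤ → ZMod W) (fl_int X a ha n hn)
  push_cast at h
  exact h

end

end Pool.Agent.Q162.LS

namespace Pool.Agent.Q145.LS

open Finset Pool.Agent.Q145.SZ Pool.Agent.Q162.LS

/-- JOB RED -/
theorem t_RED : S_RED := by
  classical
  intro X a ha
  refine ⟨fun n hn => ⟨fl_mem X a ha n hn, vl_lo X a ha n hn⟩,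
    fun n hn m hm => dst_fl X a n m hn hm, fun W _ => ⟨fun n hn => fl_zmod X a ha n hn,
      fun β => card_bcl X a β, fun n hn β => ?_, fun n hn m hm β => ⟨?_, ?_⟩⟩⟩
  · unfold A1s A1
    rw [card_bcl, sum_bcl]
    congr 1
    exact Finset.sum_congr rfl fun s _ => by rw [vl_lo X a ha n hn]
  · unfold B2s B2
    rw [card_bcl, sum_bcl]
    congr 1
    exact Finset.sum_congr rfl fun s _ => by rw [vl_lo X a ha n hn, vl_lo X a ha m hm]
  · unfold Us
    rw [mem_filter, mem_filter, fl_zmod X a ha n hn, fl_zmod X a ha m hm]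
    have h1 : ∀ x : ZMod W, x + (lo X a : ZMod W) + (β - (lo X a : ZMod W)) = x + β := by
      intro x
      ring
    rw [h1, h1]
    exact ⟨fun h => ⟨mem_univ _, h.2⟩, fun h => ⟨mem_univ _, h.2⟩⟩

end Pool.Agent.Q145.LS
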