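import Mathlib
import Pool.Agent.Q162.LS.UNI

/-!
# Project LS: an averaged Young inequality on the group of units
-/

set_option autoImplicit false
set_option linter.unusedSectionVars false

namespace Pool.Agent.Q162.LS

open Finset Pool.Agent.Q145.SZ Pool.Agent.Q145.LS

section

variable {W : ℕ} [NeZero W]

theorem sum_uni_mul (t : (ZMod W)ˣ) (f : ZMod W → ℝ) :
    ∑ d ∈ uni W, f ((t : ZMod W) * d) = ∑ d ∈ uni W, f d := by
  classical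
  refine Finset.sum_bij (fun d _ => (t : ZMod W) * d) (fun d hd => ?_)
    (fun x _ y _ h => t.isUnit.mul_left_cancel h) (fun y hy => ?_) fun d _ => rfl
  · rw [mem_uni] at hd ⊢
    exact t.isUnit.mul hd
  · refine ⟨((t⁻¹ : (ZMod W)ˣ) : ZMod W) * y, ?_, ?_⟩
    · rw [mem_uni] at hy ⊢
      exact (t⁻¹).isUnit.mul hy
    · rw [← mul_assoc, Units.mul_inv, one_mul]

theorem row_const (Q : ZMod W → ZMod W → ℝ)
    (hQ : ∀ (t : (ZMod W)ˣ) (c d : ZMod W), Q (t * c) (t * d) = Q c d) (c : ZMod W)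
    (hc : c ∈ uni W) : ∑ d ∈ uni W, Q c d = ∑ d ∈ uni W, Q 1 d := by
  obtain ⟨t, rfl⟩ := (mem_uni c).1 hc
  rw [← sum_uni_mul t (fun d => Q (t : ZMod W) d)]
  refine Finset.sum_congr rfl fun d _ => ?_
  have h := hQ t 1 d
  rwa [mul_one] at h

theorem young_aux (x ε Φ : ℝ) (hx : 0 ≤ x) (hε : 0 ≤ ε) (hε1 : ε ≤ 1) (hΦ : 0 ≤ Φ)
    (hcard : ((uni W).card : ℝ) = Φ) (Q : ZMod W → ZMod W → ℝ) (th : ZMod W → ℝ)
    (hQ0 : ∀ c d, 0 ≤ Q c d)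
    (hQ : ∀ (t : (ZMod W)ˣ) (c d : ZMod W), Q (t * c) (t * d) = Q c d)
    (he : ∑ c ∈ uni W, (th c - x) ^ 2 ≤ ε ^ 2 * x ^ 2 * Φ) :
    ∑ c ∈ uni W, ∑ d ∈ uni W, Q c d * (th c * th d) ≤
      x ^ 2 * (1 + 3 * ε) * ∑ c ∈ uni W, ∑ d ∈ uni W, Q c d := by
  classical
  obtain ⟨R, hR0, hrow⟩ : ∃ R : ℝ, 0 ≤ R ∧ ∀ c ∈ uni W, ∑ d ∈ uni W, Q c d = R :=
    ⟨∑ d ∈ uni W, Q 1 d, Finset.sum_nonneg fun d _ => hQ0 _ _, fun c hc => row_const Q hQ c hc⟩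
  obtain ⟨R', hR'0, hcol⟩ : ∃ R' : ℝ, 0 ≤ R' ∧ ∀ d ∈ uni W, ∑ c ∈ uni W, Q c d = R' :=
    ⟨∑ c ∈ uni W, Q c 1, Finset.sum_nonneg fun d _ => hQ0 _ _, fun d hd =>
      row_const (fun a b => Q b a) (fun t c d => hQ t d c) d hd⟩
  have hS : ∑ c ∈ uni W, ∑ d ∈ uni W, Q c d = Φ * R := by
    rw [Finset.sum_congr rfl hrow, Finset.sum_const, nsmul_eq_mul, hcard]
  have hS' : ∑ c ∈ uni W, ∑ d ∈ uni W, Q c d = Φ * R' := by
    rw [Finset.sum_comm, Finset.sum_congr rfl hcol, Finset.sum_const, nsmul_eq_mul, hcard]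
  -- the linear error
  have hlin : ∑ c ∈ uni W, (th c - x) ≤ Φ * (ε * x) := by
    have h1 : (∑ c ∈ uni W, (th c - x)) ^ 2 ≤ (Φ * (ε * x)) ^ 2 := by
      calc (∑ c ∈ uni W, (th c - x)) ^ 2 ≤ (uni W).card * ∑ c ∈ uni W, (th c - x) ^ 2 :=
            sq_sum_le_card_mul_sum_sq
        _ ≤ Φ * (ε ^ 2 * x ^ 2 * Φ) := by
            rw [hcard]
            exact mul_le_mul_of_nonneg_left he hΦ
        _ = (Φ * (ε * x)) ^ 2 := by ring
    exact (abs_le_of_sq_le_sq' h1 (by positivity)).2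
  have h1 : ∀ c ∈ uni W, ∀ d ∈ uni W, Q c d * (th c * th d) ≤
      Q c d * (x ^ 2 + x * (th c - x) + x * (th d - x) + (th c - x) ^ 2 / 2 +
        (th d - x) ^ 2 / 2) := by
    intro c _ d _
    refine mul_le_mul_of_nonneg_left ?_ (hQ0 c d)
    nlinarith [sq_nonneg ((th c - x) - (th d - x))]
  have h2 : ∑ c ∈ uni W, ∑ d ∈ uni W, Q c d * (x ^ 2 + x * (th c - x) + x * (th d - x) +
      (th c - x) ^ 2 / 2 + (th d - x) ^ 2 / 2) =
      ∑ c ∈ uni W, (x ^ 2 + x * (th c - x) + (th c - x) ^ 2 / 2) * ∑ d ∈ uni W, Q c d +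
      ∑ d ∈ uni W, (x * (th d - x) + (th d - x) ^ 2 / 2) * ∑ c ∈ uni W, Q c d := by
    simp only [Finset.mul_sum]
    rw [Finset.sum_comm (f := fun d c => (x * (th d - x) + (th d - x) ^ 2 / 2) * Q c d),
      ← Finset.sum_add_distrib]
    refine Finset.sum_congr rfl fun c _ => ?_
    rw [← Finset.sum_add_distrib]
    refine Finset.sum_congr rfl fun d _ => ?_
    ring
  have h3 : ∑ c ∈ uni W, (x ^ 2 + x * (th c - x) + (th c - x) ^ 2 / 2) * ∑ d ∈ uni W, Q c d =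
      (Φ * x ^ 2 + x * ∑ c ∈ uni W, (th c - x) + (∑ c ∈ uni W, (th c - x) ^ 2) / 2) * R := by
    rw [Finset.sum_congr rfl fun c hc => by rw [hrow c hc], ← Finset.sum_mul,
      Finset.sum_add_distrib, Finset.sum_add_distrib, Finset.sum_const, nsmul_eq_mul, hcard,
      Finset.mul_sum, Finset.sum_div]
  have h4 : ∑ d ∈ uni W, (x * (th d - x) + (th d - x) ^ 2 / 2) * ∑ c ∈ uni W, Q c d =
      (x * ∑ c ∈ uni W, (th c - x) + (∑ c ∈ uni W, (th c - x) ^ 2) / 2) * R' := by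
    rw [Finset.sum_congr rfl fun c hc => by rw [hcol c hc], ← Finset.sum_mul,
      Finset.sum_add_distrib, Finset.mul_sum, Finset.sum_div]
  refine (Finset.sum_le_sum fun c hc => Finset.sum_le_sum fun d hd => h1 c hc d hd).trans ?_
  rw [h2, h3, h4]
  set L : ℝ := ∑ c ∈ uni W, (th c - x)
  set M : ℝ := ∑ c ∈ uni W, (th c - x) ^ 2
  set S : ℝ := ∑ c ∈ uni W, ∑ d ∈ uni W, Q c d
  have hS0 : 0 ≤ S := by rw [hS]; exact mul_nonneg hΦ hR0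
  have a1 : x * L * R ≤ x * (Φ * (ε * x)) * R :=
    mul_le_mul_of_nonneg_right (mul_le_mul_of_nonneg_left hlin hx) hR0
  have a2 : x * L * R' ≤ x * (Φ * (ε * x)) * R' :=
    mul_le_mul_of_nonneg_right (mul_le_mul_of_nonneg_left hlin hx) hR'0
  have a3 : M / 2 * R ≤ (ε ^ 2 * x ^ 2 * Φ) / 2 * R :=
    mul_le_mul_of_nonneg_right (by linarith) hR0
  have a4 : M / 2 * R' ≤ (ε ^ 2 * x ^ 2 * Φ) / 2 * R' :=
    mul_le_mul_of_nonneg_right (by linarith) hR'0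
  have a5 : ε ^ 2 ≤ ε := by nlinarith
  have a6 : ε ^ 2 * (x ^ 2 * S) ≤ ε * (x ^ 2 * S) :=
    mul_le_mul_of_nonneg_right a5 (by positivity)
  have b1 : x * (Φ * (ε * x)) * R = ε * (x ^ 2 * S) := by rw [hS]; ring
  have b2 : x * (Φ * (ε * x)) * R' = ε * (x ^ 2 * S) := by rw [hS']; ring
  have b3 : (ε ^ 2 * x ^ 2 * Φ) / 2 * R = ε ^ 2 * (x ^ 2 * S) / 2 := by rw [hS]; ring
  have b4 : (ε ^ 2 * x ^ 2 * Φ) / 2 * R' = ε ^ 2 * (x ^ 2 * S) / 2 := by rw [hS']; ring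
  have b5 : Φ * x ^ 2 * R = x ^ 2 * S := by rw [hS]; ring
  have c1 : (Φ * x ^ 2 + x * L + M / 2) * R + (x * L + M / 2) * R' =
      Φ * x ^ 2 * R + x * L * R + M / 2 * R + x * L * R' + M / 2 * R' := by ring
  rw [c1]
  nlinarith

end

end Pool.Agent.Q162.LS

namespace Pool.Agent.Q145.LS

open Finset Pool.Agent.Q145.SZ Pool.Agent.Q162.LS

/-- JOB YNG -/
theorem t_YNG : S_YNG := by
  intro W _ X ε Q _ hε hε1 hQ0 hQ h
  have hphi : (0 : ℝ) < Nat.totient W := by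
    exact_mod_cast Nat.totient_pos.2 (Nat.pos_of_ne_zero (NeZero.ne W))
  refine young_aux ((X : ℝ) / Nat.totient W) ε (Nat.totient W) (by positivity) hε hε1 hphi.le
    (by rw [card_uni]) Q (fun c => th X c) hQ0 hQ (h.trans_eq ?_)
  field_simp

end Pool.Agent.Q145.LS
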