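import Mathlib
import Pool.Agent.Q162.LS.RED

/-!
# Project LS: the weighted count and the count
-/

set_option autoImplicit false
set_option linter.unusedSectionVars false

namespace Pool.Agent.Q162.LS

open Finset Pool.Agent.Q145.SZ Pool.Agent.Q145.LS

theorem vl_bounds (X : ℕ) (a : ℤ) (ha : a ≠ 0) (n : ℕ) (hn : n ∈ Ioc X (2 * X)) (s : ℕ)
    (hs : s ∈ bx X a) : a.natAbs * X ≤ vl a n s ∧ vl a n s ≤ 3 * (a.natAbs * X) := by
  unfold bx at hs
  rw [mem_Ioc] at hs
  obtain ⟨s', rfl⟩ : ∃ s', s = lo X a + s' := ⟨s - lo X a, by omega⟩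
  have h1 := fl_mem X a ha n hn
  rw [mem_Ioc] at h1
  rw [vl_lo X a ha n hn]
  omega

end Pool.Agent.Q162.LS

namespace Pool.Agent.Q145.LS

open Finset Pool.Agent.Q145.SZ Pool.Agent.Q162.LS

/-- JOB WCB -/
theorem t_WCB : S_WCB := by
  classical
  intro X K a s hX ha hs
  have hXr : (3 : ℝ) ≤ X := by exact_mod_cast hX
  have hL : 0 ≤ Real.log X := Real.log_nonneg (by linarith)
  have ha1 : ∀ i, (1 : ℝ) ≤ ((a i).natAbs : ℝ) := fun i => by
    exact_mod_cast Int.natAbs_pos.2 (ha i)
  have haX : ∀ i, (3 : ℝ) ≤ ((a i).natAbs : ℝ) * X := fun i => by nlinarith [ha1 i]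
  have key : ∀ n ∈ Ioc X (2 * X),
      (if n.Prime ∧ ∀ i, (vl (a i) n (s i)).Prime then
        Real.log X * ∏ i, Real.log ((a i).natAbs * X) else 0) ≤
        wt n * ∏ i, wt (vl (a i) n (s i)) ∧
      wt n * ∏ i, wt (vl (a i) n (s i)) ≤ (if n.Prime ∧ ∀ i, (vl (a i) n (s i)).Prime then
        Real.log (3 * X) * ∏ i, Real.log (3 * ((a i).natAbs * X)) else 0) := by
    intro n hn
    have hn' := mem_Ioc.1 hn
    have hb := fun i => vl_bounds X (a i) (ha i) n hn (s i) (hs i)
    split_ifs with h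
    · have hc : ∏ i, wt (vl (a i) n (s i)) = ∏ i, Real.log ((vl (a i) n (s i) : ℕ) : ℝ) :=
        prod_congr rfl fun i _ => by
          unfold wt
          rw [if_pos (h.2 i)]
      have hw : wt n = Real.log n := by
        unfold wt
        rw [if_pos h.1]
      rw [hc, hw]
      have hX1 : (X : ℝ) ≤ n := by exact_mod_cast hn'.1.le
      have hX2 : (n : ℝ) ≤ 3 * X := by
        have : n ≤ 3 * X := by omega
        exact_mod_cast this
      have hv1 : ∀ i, ((a i).natAbs : ℝ) * X ≤ (vl (a i) n (s i) : ℕ) := fun i => by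
        exact_mod_cast (hb i).1
      have hv2 : ∀ i, ((vl (a i) n (s i) : ℕ) : ℝ) ≤ 3 * (((a i).natAbs : ℝ) * X) := fun i => by
        exact_mod_cast (hb i).2
      have hl1 : ∀ i, 0 ≤ Real.log (((a i).natAbs : ℝ) * X) := fun i =>
        Real.log_nonneg (by linarith [haX i])
      have hl2 : ∀ i, 0 ≤ Real.log ((vl (a i) n (s i) : ℕ) : ℝ) := fun i =>
        Real.log_natCast_nonneg _
      constructor
      · refine mul_le_mul (Real.log_le_log (by linarith) hX1) ?_ (prod_nonneg fun i _ => hl1 i)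
          (Real.log_natCast_nonneg _)
        exact prod_le_prod (fun i _ => hl1 i) fun i _ =>
          Real.log_le_log (by linarith [haX i]) (hv1 i)
      · refine mul_le_mul (Real.log_le_log (by linarith) hX2) ?_ (prod_nonneg fun i _ => hl2 i)
          (Real.log_nonneg (by linarith))
        exact prod_le_prod (fun i _ => hl2 i) fun i _ =>
          Real.log_le_log (by linarith [haX i, hv1 i]) (hv2 i)
    · have : wt n * ∏ i, wt (vl (a i) n (s i)) = 0 := by
        by_cases h1 : n.Prime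
        · have h2 : ¬ ∀ i, (vl (a i) n (s i)).Prime := fun h3 => h ⟨h1, h3⟩
          push Not at h2
          obtain ⟨i, hi⟩ := h2
          rw [prod_eq_zero (mem_univ i) (by unfold wt; rw [if_neg hi]), mul_zero]
        · unfold wt
          rw [if_neg h1, zero_mul]
      rw [this]
      exact ⟨le_rfl, le_rfl⟩
  have e : ∀ x : ℝ, (cntS X a s : ℝ) * x = ∑ n ∈ Ioc X (2 * X),
      (if n.Prime ∧ ∀ i, (vl (a i) n (s i)).Prime then x else 0) := by
    intro x
    unfold cntS
    rw [← sum_filter, sum_const, nsmul_eq_mul]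
  rw [e, e]
  unfold wcS
  exact ⟨sum_le_sum fun n hn => (key n hn).1, sum_le_sum fun n hn => (key n hn).2⟩

end Pool.Agent.Q145.LS
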